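import Mathlib

set_option autoImplicit false

namespace Q125.FNO

open MeasureTheory Set
open scoped ENNReal NNReal

/-- Lebesgue measure on the open unit cube `(0,1)^d`. -/
noncomputable def mu (d : ℕ) : Measure (Fin d → ℝ) :=
  volume.restrict (Set.pi univ (fun _ => Ioo (0:ℝ) 1))

/-- The real Hilbert space `L^2((0,1)^d)`. -/
abbrev U (d : ℕ) : Type := Lp ℝ 2 (mu d)

/-- The Borel sigma-algebra on `L^2((0,1)^d)`. -/
noncomputable instance (d : ℕ) : MeasurableSpace (U d) := borel _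

instance (d : ℕ) : BorelSpace (U d) := ⟨rfl⟩

/-- Parameters of a Fourier neural operator with channel set `ι`: the affine lifting
`R(u,x)_i = Ru_i u + sum_j Rx_ij x_j + Rb_i`, the weights `W l`, biases `b l` and Fourier
multipliers `P l k` of layer number `l + 1`, and the affine projection `Q(v) = sum_i Q_i v_i + Qb`. -/
structure Params (d : ℕ) (ι : Type) where
  Ru : ι → ℝ
  Rx : ι → Fin d → ℝ
  Rb : ι → ℝ
  W : ℕ → ι → ι → ℝ
  b : ℕ → ι → ℝ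
  P : ℕ → (Fin d → ℤ) → ι → ι → ℂ
  Q : ι → ℝ
  Qb : ℝ

/-- The frequencies `k` in `Z^d` with sup norm smaller than `κ`. -/
noncomputable def freqs (d κ : ℕ) : Finset (Fin d → ℤ) :=
  Fintype.piFinset (fun _ => Finset.Ioo (-(κ:ℤ)) (κ:ℤ))

/-- The character `x ↦ exp(2 pi i k.x)`. -/
noncomputable def char {d : ℕ} (k : Fin d → ℤ) (x : Fin d → ℝ) : ℂ :=
  Complex.exp (2 * Real.pi * Complex.I * ((∑ j, (k j : ℝ) * x j : ℝ) : ℂ))

/-- Fourier coefficient number `k` of a real function on the unit cube. -/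
noncomputable def coeff {d : ℕ} (v : (Fin d → ℝ) → ℝ) (k : Fin d → ℤ) : ℂ :=
  ∫ x, (v x : ℂ) * char (-k) x ∂(mu d)

/-- The function `F^{-1}(P F v)`, with the multiplier cut off at frequencies of sup norm `< κ`. -/
noncomputable def mult {d : ℕ} {ι : Type} [Fintype ι] (κ : ℕ) (P : (Fin d → ℤ) → ι → ι → ℂ)
    (v : (Fin d → ℝ) → ι → ℝ) (x : Fin d → ℝ) (i : ι) : ℂ :=
  ∑ k ∈ freqs d κ, (∑ j, P k i j * coeff (fun y => v y j) k) * char k x

/-- The hidden states `v_0, v_1, ...` of the network at the input `u`. -/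
noncomputable def Params.state {d : ℕ} {ι : Type} [Fintype ι] (θ : Params d ι) (κ : ℕ)
    (u : (Fin d → ℝ) → ℝ) : ℕ → (Fin d → ℝ) → ι → ℝ
  | 0 => fun x i => θ.Ru i * u x + ∑ j, θ.Rx i j * x j + θ.Rb i
  | l + 1 => fun x i =>
      max 0 (∑ j, θ.W l i j * θ.state κ u l x j + θ.b l i + (mult κ (θ.P l) (θ.state κ u l) x i).re)

/-- The output `Q(v_L(x))` of the network of depth `L`. -/
noncomputable def Params.eval {d : ℕ} {ι : Type} [Fintype ι] (θ : Params d ι) (κ L : ℕ)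
    (u : (Fin d → ℝ) → ℝ) (x : Fin d → ℝ) : ℝ :=
  ∑ i, θ.Q i * θ.state κ u L x i + θ.Qb

/-- All real parameters of a network of depth `L` and Fourier cutoff `κ` are bounded by `M`. -/
def Params.Bounded {d : ℕ} {ι : Type} (θ : Params d ι) (κ L : ℕ) (M : ℝ) : Prop :=
  (∀ i, |θ.Ru i| ≤ M ∧ (∀ j, |θ.Rx i j| ≤ M) ∧ |θ.Rb i| ≤ M ∧ |θ.Q i| ≤ M) ∧ |θ.Qb| ≤ M ∧
  (∀ l < L, ∀ i, |θ.b l i| ≤ M ∧ ∀ j, |θ.W l i j| ≤ M ∧
    ∀ k ∈ freqs d κ, |(θ.P l k i j).re| ≤ M ∧ |(θ.P l k i j).im| ≤ M)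

/-- The symmetry `P_l(-k) = conj P_l(k)`. -/
def Params.Symm {d : ℕ} {ι : Type} (θ : Params d ι) (κ L : ℕ) : Prop :=
  ∀ l < L, ∀ k ∈ freqs d κ, ∀ i j, θ.P l (-k) i j = (starRingEnd ℂ) (θ.P l k i j)

/-- The maps `u ↦ Ψ_θ(u)` of the class `N_m`, given on functions on the cube. -/
def Net (d m : ℕ) : Set (((Fin d → ℝ) → ℝ) → (Fin d → ℝ) → ℝ) :=
  {Ψ | ∃ (κ c L : ℕ) (θ : Params d (Fin c)), 1 ≤ κ ∧ 1 ≤ c ∧ 1 ≤ L ∧ κ ^ d ≤ m ∧ c ≤ m ∧ L ≤ m ∧
    θ.Symm κ L ∧ θ.Bounded κ L (Real.exp m) ∧ Ψ = θ.eval κ L}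

/-- The error `e(f,m)` of best uniform approximation of `f` on `K` by the class `N_m`. -/
noncomputable def err {d : ℕ} {K : Set (U d)} (f : K → U d) (m : ℕ) : ℝ≥0∞ :=
  ⨅ Ψ ∈ Net d m, ⨆ u : K, eLpNorm (fun x => f u x - Ψ (u : U d) x) 2 (mu d)

/-- The functional `Γ^α(f)`. -/
noncomputable def Gam {d : ℕ} {K : Set (U d)} (α : ℝ) (f : K → U d) : ℝ≥0∞ :=
  max (⨆ u : K, ‖f u‖ₑ) (⨆ (m : ℕ) (_ : 1 ≤ m), (m : ℝ≥0∞) ^ α * err f m)

/-- The space `C(K;V)` with `V = L^2((0,1)^d)`. -/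
abbrev Maps {d : ℕ} (K : Set (U d)) : Type := C(K, U d)

/-- The function `t^{-1} f`. -/
noncomputable def scale {d : ℕ} {K : Set (U d)} (t : ℝ) (f : K → U d) : K → U d :=
  fun u => t⁻¹ • f u

/-- The class `K^α(K)`: all `G` with `inf {t > 0 : Γ^α(t^{-1} G) ≤ 1} ≤ 1`
(the infimum of the empty set is infinite). -/
noncomputable def Kal {d : ℕ} (α : ℝ) (K : Set (U d)) : Set (Maps K) :=
  {G | (⨅ (t : ℝ) (_ : 0 < t) (_ : Gam α (scale t G) ≤ 1), ENNReal.ofReal t) ≤ 1}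

/-- The element of `X` given by `f`: extension by zero outside `K`. -/
noncomputable def ext {d : ℕ} {K : Set (U d)} (f : K → U d) (u : U d) : U d :=
  open Classical in if h : u ∈ K then f ⟨u, h⟩ else 0

/-- The space `X = L^2_ρ(U; U)`. -/
abbrev X {d : ℕ} (ρ : Measure (U d)) : Type := Lp (U d) 2 ρ

/-- The distance `‖f - g‖_X` for a function `f` and an element `g` of `X`. -/
noncomputable def distX {d : ℕ} (ρ : Measure (U d)) (f : U d → U d) (g : X ρ) : ℝ≥0∞ :=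
  eLpNorm (fun u => f u - g u) 2 ρ

/-- The sampling width `s_n` of a class `F` of continuous maps in `X = L^2_ρ(U; U)`. -/
noncomputable def width {d : ℕ} {K : Set (U d)} (ρ : Measure (U d)) (F : Set (Maps K)) (n : ℕ) :
    ℝ≥0∞ :=
  ⨅ (p : Fin n → K) (D : (Fin n → U d) → X ρ), ⨆ f ∈ F, distX ρ (ext f) (D (fun i => f (p i)))

/-- The optimal exponent `β^*`: the supremum of the `β ≥ 0` for which `n^β s_n` stays bounded. -/
noncomputable def betaStar {d : ℕ} {K : Set (U d)} (ρ : Measure (U d)) (F : Set (Maps K)) :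
    ℝ≥0∞ :=
  ⨆ (β : ℝ≥0) (_ : ∃ C : ℝ≥0, ∀ n : ℕ, 1 ≤ n → (n : ℝ≥0∞) ^ (β : ℝ) * width ρ F n ≤ C), (β : ℝ≥0∞)

/-- The admissible pairs `(K, ρ)`: `K` is compact, convex and lies in no finite-dimensional
subspace, `ρ` is a probability measure supported in `K` whose covariance operator is strictly
positive definite. -/
def Admissible {d : ℕ} (K : Set (U d)) (ρ : Measure (U d)) : Prop :=
  IsCompact K ∧ Convex ℝ K ∧
  (∀ F : Submodule ℝ (U d), FiniteDimensional ℝ F → ¬ K ⊆ (F : Set (U d))) ∧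
  IsProbabilityMeasure ρ ∧ ρ Kᶜ = 0 ∧
  ∀ v : U d, v ≠ 0 →
    0 < ∫ u, (inner ℝ u v - ∫ w, inner ℝ w v ∂ρ) ^ 2 ∂ρ

end Q125.FNO
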