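import Pool.Agent.Q125.FNO.Expo

set_option autoImplicit false

namespace Q125.FNO

open MeasureTheory Set
open scoped ENNReal NNReal

instance sepU (d : ℕ) : TopologicalSpace.SeparableSpace (U d) := by
  have : Fact ((2:ℝ≥0∞) ≠ ∞) := ⟨by norm_num⟩
  have : SecondCountableTopology (Lp ℝ 2 (mu d)) := Lp.SecondCountableTopology
  infer_instance

/-- A dense sequence of `L^2`. -/
noncomputable def g (d : ℕ) : ℕ → U d := TopologicalSpace.denseSeq (U d)

/-- The normalised sequence. -/
noncomputable def w (d : ℕ) (k : ℕ) : U d := ((2:ℝ) ^ k * (1 + ‖g d k‖))⁻¹ • g d k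

lemma w_norm (d k : ℕ) : ‖w d k‖ ≤ ((1:ℝ)/2) ^ k := by
  unfold w
  have h0 : 0 ≤ ‖g d k‖ := norm_nonneg _
  rw [norm_smul, norm_inv, Real.norm_eq_abs, abs_of_pos (by positivity), mul_inv,
    mul_assoc, one_div, inv_pow]
  refine mul_le_of_le_one_right (by positivity) ?_
  rw [inv_mul_le_iff₀ (by positivity)]
  linarith

/-- The sequence spanning the compact set. -/
noncomputable def W (d : ℕ) : ℕ → U d
  | 0 => one d
  | k + 1 => w d k

lemma W_norm (d k : ℕ) : ‖W d k‖ ≤ 2 * ((1:ℝ)/2) ^ k := by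
  cases k with
  | zero => simp [W, norm_one]
  | succ k =>
    have := w_norm d k
    simp only [W, pow_succ]
    linarith

lemma W_summable (d : ℕ) : Summable (fun k => 2 * ((1:ℝ)/2) ^ k) :=
  (summable_geometric_of_lt_one (by norm_num) (by norm_num)).mul_left 2

/-- The cube of coefficients. -/
def cube : Set (ℕ → ℝ) := Set.pi univ (fun _ => Icc (-1:ℝ) 1)

lemma term_norm (d k : ℕ) (a : ℕ → ℝ) (ha : a ∈ cube) : ‖a k • W d k‖ ≤ 2 * ((1:ℝ)/2) ^ k := by
  rw [norm_smul]
  have h1 : ‖a k‖ ≤ 1 := abs_le.2 (ha k (mem_univ k))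
  calc ‖a k‖ * ‖W d k‖ ≤ 1 * ‖W d k‖ := mul_le_mul_of_nonneg_right h1 (norm_nonneg _)
    _ ≤ _ := by rw [one_mul]; exact W_norm d k

/-- The sum of the series. -/
noncomputable def S (d : ℕ) (a : ℕ → ℝ) : U d := ∑' k, a k • W d k

/-- The compact convex set. -/
noncomputable def KK (d : ℕ) : Set (U d) := S d '' cube

lemma KK_compact (d : ℕ) : IsCompact (KK d) := by
  refine (isCompact_univ_pi (fun _ => isCompact_Icc)).image_of_continuousOn ?_
  refine continuousOn_tsum (fun k => ?_) (W_summable d) (fun k a ha => term_norm d k a ha)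
  exact ((continuous_apply k).smul continuous_const).continuousOn

lemma term_summable (d : ℕ) (a : ℕ → ℝ) (ha : a ∈ cube) : Summable (fun k => a k • W d k) :=
  Summable.of_norm_bounded (W_summable d) (fun k => term_norm d k a ha)

lemma KK_convex (d : ℕ) : Convex ℝ (KK d) := by
  rintro _ ⟨a, ha, rfl⟩ _ ⟨b, hb, rfl⟩ x y hx hy hxy
  refine ⟨x • a + y • b, ?_, ?_⟩
  · have : Convex ℝ cube := convex_pi (fun _ _ => convex_Icc (-1:ℝ) 1)
    exact this ha hb hx hy hxy
  · unfold S
    rw [← Summable.tsum_const_smul x (term_summable d a ha),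
      ← Summable.tsum_const_smul y (term_summable d b hb),
      ← Summable.tsum_add ((term_summable d a ha).const_smul x)
        ((term_summable d b hb).const_smul y)]
    refine tsum_congr ?_
    intro k
    simp only [Pi.add_apply, Pi.smul_apply, smul_eq_mul, add_smul, mul_smul]

lemma KK_mem (d k : ℕ) (t : ℝ) (ht : t ∈ Icc (0:ℝ) 1) : t • one d + w d k ∈ KK d := by
  refine ⟨fun i => if i = 0 then t else if i = k + 1 then 1 else 0, ?_, ?_⟩
  · intro i _
    simp only
    split_ifs
    · exact ⟨by linarith [ht.1], ht.2⟩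
    · constructor <;> norm_num
    · constructor <;> norm_num
  · unfold S
    rw [tsum_eq_sum (s := {0, k + 1})]
    · rw [Finset.sum_pair (by omega)]
      simp [W]
    · intro i hi
      simp only [Finset.mem_insert, Finset.mem_singleton, not_or] at hi
      simp [hi.1, hi.2]

/-- The segment number `k`. -/
noncomputable def seg (d k : ℕ) (t : ℝ) : U d := t • one d + w d k

lemma seg_cont (d k : ℕ) : Continuous (seg d k) := by unfold seg; fun_prop

lemma ell_seg (d k : ℕ) (t : ℝ) : ell (seg d k t) = t + ell (w d k) := by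
  rw [ell_eq, ell_eq, seg, inner_add_right, inner_smul_right, real_inner_self_eq_norm_sq, norm_one]
  simp

/-- Law number `k`. -/
noncomputable def rk (d k : ℕ) : Measure (U d) :=
  Measure.map (seg d k) (volume.restrict (Icc (0:ℝ) 1))

/-- The probability measure. -/
noncomputable def rho (d : ℕ) : Measure (U d) :=
  Measure.sum (fun k => ((2:ℝ≥0∞)⁻¹ ^ (k + 1)) • rk d k)

lemma rk_apply (d k : ℕ) {s : Set (U d)} (hs : MeasurableSet s) :
    rk d k s = volume ((seg d k) ⁻¹' s ∩ Icc (0:ℝ) 1) := by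
  unfold rk
  rw [Measure.map_apply (seg_cont d k).measurable hs,
    Measure.restrict_apply ((seg_cont d k).measurable hs)]

lemma rho_apply_le (d : ℕ) {s : Set (U d)} (hs : MeasurableSet s) (c : ℝ≥0∞)
    (h : ∀ k, rk d k s ≤ c) : rho d s ≤ c := by
  unfold rho
  rw [Measure.sum_apply _ hs]
  calc ∑' k, ((2:ℝ≥0∞)⁻¹ ^ (k + 1) • rk d k) s ≤ ∑' k, (2:ℝ≥0∞)⁻¹ ^ (k + 1) * c := by
        refine ENNReal.tsum_le_tsum ?_
        intro k
        rw [Measure.smul_apply, smul_eq_mul]
        exact mul_le_mul' le_rfl (h k)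
    _ = c := by
        rw [ENNReal.tsum_mul_right, ENNReal.tsum_geometric_add_one, ENNReal.one_sub_inv_two,
          inv_inv, ENNReal.inv_mul_cancel (by norm_num) (by norm_num), one_mul]

instance rho_prob (d : ℕ) : IsProbabilityMeasure (rho d) := by
  refine ⟨?_⟩
  unfold rho
  rw [Measure.sum_apply _ MeasurableSet.univ]
  have : ∀ k, ((2:ℝ≥0∞)⁻¹ ^ (k + 1) • rk d k) univ = (2:ℝ≥0∞)⁻¹ ^ (k + 1) := by
    intro k
    rw [Measure.smul_apply, smul_eq_mul, rk_apply d k MeasurableSet.univ]
    simp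
  simp only [this]
  rw [ENNReal.tsum_geometric_add_one, ENNReal.one_sub_inv_two, inv_inv,
    ENNReal.inv_mul_cancel (by norm_num) (by norm_num)]

lemma rho_supp (d : ℕ) : rho d (KK d)ᶜ = 0 := by
  refine le_antisymm ?_ zero_le
  refine rho_apply_le d (KK_compact d).measurableSet.compl 0 ?_
  intro k
  rw [rk_apply d k (KK_compact d).measurableSet.compl]
  have : seg d k ⁻¹' (KK d)ᶜ ∩ Icc (0:ℝ) 1 = ∅ := by
    ext t
    simp only [mem_inter_iff, mem_preimage, mem_compl_iff, mem_empty_iff_false, iff_false, not_and]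
    intro h ht
    exact h (KK_mem d k t ht)
  rw [this]
  simp

lemma rho_conc (d : ℕ) : LogConc (rho d) := by
  refine ⟨2, ?_⟩
  intro t k hk
  have hmeas : MeasurableSet {u : U d | |(∫ x, u x ∂(mu d)) - t| ≤ Real.exp (-k)} := by
    refine measurableSet_le ?_ measurable_const
    exact (continuous_abs.comp ((ell_cont (d := d)).sub continuous_const)).measurable
  refine rho_apply_le d hmeas _ ?_
  intro j
  rw [rk_apply d j hmeas]
  have hsub : seg d j ⁻¹' {u : U d | |(∫ x, u x ∂(mu d)) - t| ≤ Real.exp (-k)} ∩ Icc (0:ℝ) 1 ⊆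
      Icc (t - ell (w d j) - Real.exp (-k)) (t - ell (w d j) + Real.exp (-k)) := by
    rintro s ⟨hs, _⟩
    have h1 : |ell (seg d j s) - t| ≤ Real.exp (-k) := hs
    rw [ell_seg, abs_le] at h1
    constructor <;> linarith [h1.1, h1.2]
  refine (measure_mono hsub).trans ?_
  rw [Real.volume_Icc]
  apply ENNReal.ofReal_le_ofReal
  have hk0 : (0:ℝ) < k := by exact_mod_cast hk
  have h2 : Real.exp (-(k:ℝ)) ≤ 1 / k := by
    rw [Real.exp_neg, ← one_div]
    apply one_div_le_one_div_of_le hk0
    have := Real.add_one_le_exp (k:ℝ)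
    linarith
  have h3 : (2:ℝ) / k = 1 / k + 1 / k := by ring
  rw [h3]
  linarith

lemma g_dense (d : ℕ) : DenseRange (g d) := TopologicalSpace.denseRange_denseSeq _

lemma g_eq (d k : ℕ) : g d k = ((2:ℝ) ^ k * (1 + ‖g d k‖)) • w d k := by
  unfold w
  have h0 : 0 ≤ ‖g d k‖ := norm_nonneg _
  have : (2:ℝ) ^ k * (1 + ‖g d k‖) ≠ 0 := by positivity
  rw [smul_smul, mul_inv_cancel₀ this, one_smul]

lemma rho_cov (d : ℕ) (v : U d) (hv : v ≠ 0) :
    0 < ∫ u, (inner ℝ u v - ∫ w, inner ℝ w v ∂(rho d)) ^ 2 ∂(rho d) := by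
  set m := ∫ w, inner ℝ w v ∂(rho d) with hm
  have hcont : Continuous (fun u : U d => (inner ℝ u v - m) ^ 2) := by fun_prop
  obtain ⟨B, hB⟩ := (KK_compact d).isBounded.exists_norm_le
  have hK : ∀ᵐ u ∂(rho d), u ∈ KK d := by
    rw [ae_iff]
    exact rho_supp d
  have hint : Integrable (fun u : U d => (inner ℝ u v - m) ^ 2) (rho d) := by
    refine Integrable.of_bound (C := (B * ‖v‖ + |m|) ^ 2) hcont.measurable.aestronglyMeasurable ?_
    filter_upwards [hK] with u hu
    rw [Real.norm_eq_abs, abs_pow]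
    refine pow_le_pow_left₀ (abs_nonneg _) ?_ 2
    calc |inner ℝ u v - m| ≤ |inner ℝ u v| + |m| := abs_sub _ _
      _ ≤ ‖u‖ * ‖v‖ + |m| := by gcongr; exact abs_real_inner_le_norm u v
      _ ≤ B * ‖v‖ + |m| := by gcongr; exact hB u hu
  have h0 : 0 ≤ ∫ u, (inner ℝ u v - m) ^ 2 ∂(rho d) := integral_nonneg (fun _ => sq_nonneg _)
  refine lt_of_le_of_ne h0 ?_
  intro heq
  have hae := (integral_eq_zero_iff_of_nonneg (fun _ => sq_nonneg _) hint).1 heq.symm
  have hk : ∀ k, ∀ᵐ t ∂(volume.restrict (Icc (0:ℝ) 1)),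
      t * inner ℝ (one d) v + inner ℝ (w d k) v = m := by
    intro k
    have h1 : ∀ᵐ u ∂(rho d), (inner ℝ u v - m) ^ 2 = 0 := hae
    unfold rho at h1
    rw [Measure.ae_sum_iff] at h1
    have h2 := h1 k
    rw [Measure.ae_ennreal_smul_measure_iff (pow_ne_zero _ (by simp))] at h2
    unfold rk at h2
    rw [ae_map_iff (seg_cont d k).measurable.aemeasurable
      (by exact (measurableSet_singleton (0:ℝ)).preimage hcont.measurable)] at h2
    filter_upwards [h2] with t ht
    have h3 : inner ℝ (seg d k t) v - m = 0 := by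
      have := pow_eq_zero_iff (two_ne_zero) |>.1 ht
      exact this
    rw [seg, inner_add_left, inner_smul_left] at h3
    simp only [conj_trivial] at h3
    linarith
  have hone : inner ℝ (one d) v = 0 := by
    by_contra hne
    have h1 := hk 0
    rw [ae_iff, Measure.restrict_apply'] at h1
    · have hsub : Icc (0:ℝ) 1 \ {(m - inner ℝ (w d 0) v) / inner ℝ (one d) v} ⊆
          {a | ¬a * inner ℝ (one d) v + inner ℝ (w d 0) v = m} ∩ Icc (0:ℝ) 1 := by
        rintro t ⟨ht1, ht2⟩
        refine ⟨?_, ht1⟩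
        intro h
        apply ht2
        rw [mem_singleton_iff, eq_div_iff hne]
        linarith
      have h2 : volume (Icc (0:ℝ) 1 \ {(m - inner ℝ (w d 0) v) / inner ℝ (one d) v}) ≤ 0 :=
        (measure_mono hsub).trans h1.le
      rw [measure_sdiff_null (by simp)] at h2
      simp at h2
    · exact measurableSet_Icc
  have hw : ∀ k, inner ℝ (w d k) v = m := by
    intro k
    have : (ae (volume.restrict (Icc (0:ℝ) 1))).NeBot := ae_restrict_neBot.2 (by simp)
    obtain ⟨t, ht⟩ := ((hk k).and (ae_restrict_mem measurableSet_Icc)).exists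
    have := ht.1
    rw [hone, mul_zero, zero_add] at this
    exact this
  have hw0 : Filter.Tendsto (fun k => (inner ℝ (w d k) v : ℝ)) Filter.atTop (nhds 0) := by
    have h1 : Filter.Tendsto (fun k => ((1:ℝ)/2) ^ k * ‖v‖) Filter.atTop (nhds (0 * ‖v‖)) :=
      (tendsto_pow_atTop_nhds_zero_of_lt_one (by norm_num) (by norm_num)).mul_const _
    rw [zero_mul] at h1
    refine squeeze_zero_norm (fun k => ?_) h1
    calc ‖(inner ℝ (w d k) v : ℝ)‖ ≤ ‖w d k‖ * ‖v‖ := norm_inner_le_norm _ _
      _ ≤ _ := mul_le_mul_of_nonneg_right (w_norm d k) (norm_nonneg _)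
  have hm0 : m = 0 := by
    have h1 : (fun k => (inner ℝ (w d k) v : ℝ)) = fun _ => m := funext hw
    rw [h1] at hw0
    exact tendsto_nhds_unique tendsto_const_nhds hw0
  have hg : ∀ k, inner ℝ (g d k) v = 0 := by
    intro k
    rw [g_eq, inner_smul_left, hw k, hm0]
    simp
  have hall : ∀ u : U d, inner ℝ u v = 0 := by
    have hc : Continuous (fun u : U d => (inner ℝ u v : ℝ)) := by fun_prop
    have := DenseRange.equalizer (g_dense d) hc (continuous_const (y := (0:ℝ)))
      (funext hg)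
    intro u
    exact congrFun this u
  exact hv (inner_self_eq_zero.1 (hall v))

/-- Slices of the cube. -/
def slice (d : ℕ) (hd : 0 < d) (j : ℕ) : Set (Fin d → ℝ) :=
  {x | (1:ℝ) / (j + 2) < x ⟨0, hd⟩ ∧ x ⟨0, hd⟩ < 1 / (j + 1)}

lemma slice_open (d : ℕ) (hd : 0 < d) (j : ℕ) : IsOpen (slice d hd j) :=
  (isOpen_lt continuous_const (continuous_apply _)).inter
    (isOpen_lt (continuous_apply _) continuous_const)

lemma slice_pos (d : ℕ) (hd : 0 < d) (j : ℕ) : mu d (slice d hd j) ≠ 0 := by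
  unfold mu
  rw [Measure.restrict_apply (slice_open d hd j).measurableSet]
  refine (IsOpen.measure_pos volume ((slice_open d hd j).inter
    (isOpen_set_pi finite_univ (fun _ _ => isOpen_Ioo))) ?_).ne'
  have h1 : (1:ℝ) / (j + 2) < 1 / (j + 1) := by
    apply one_div_lt_one_div_of_lt <;> linarith [(Nat.cast_nonneg j : (0:ℝ) ≤ j)]
  have h2 : (1:ℝ) / (j + 1) ≤ 1 := by
    rw [div_le_one (by positivity)]; linarith [(Nat.cast_nonneg j : (0:ℝ) ≤ j)]
  have h3 : (0:ℝ) < 1 / (j + 2) := by positivity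
  refine ⟨fun _ => (1 / (j + 2) + 1 / (j + 1)) / 2, ?_, ?_⟩
  · constructor
    · show (1:ℝ) / (j + 2) < (1 / (j + 2) + 1 / (j + 1)) / 2
      linarith
    · show ((1:ℝ) / (j + 2) + 1 / (j + 1)) / 2 < 1 / (j + 1)
      linarith
  · intro i _
    constructor
    · show (0:ℝ) < (1 / (j + 2) + 1 / (j + 1)) / 2
      linarith
    · show ((1:ℝ) / (j + 2) + 1 / (j + 1)) / 2 < 1
      linarith

lemma slice_disj (d : ℕ) (hd : 0 < d) (i j : ℕ) (hij : i < j) :
    slice d hd i ∩ slice d hd j = ∅ := by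
  ext x
  simp only [mem_inter_iff, mem_empty_iff_false, iff_false, not_and]
  intro h1 h2
  have h3 := h1.1
  have h4 := h2.2
  have : (1:ℝ) / (j + 1) ≤ 1 / (i + 2) := by
    apply one_div_le_one_div_of_le (by positivity)
    have : (i:ℝ) + 1 ≤ j := by exact_mod_cast hij
    linarith
  linarith

lemma not_finite (d : ℕ) (hd : 0 < d) : ¬ FiniteDimensional ℝ (U d) := by
  intro hfin
  set e : ℕ → U d := fun j =>
    indicatorConstLp 2 (slice_open d hd j).measurableSet (measure_ne_top _ _) (1:ℝ) with he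
  have hin : ∀ i j, inner ℝ (e i) (e j) = (mu d).real (slice d hd i ∩ slice d hd j) := by
    intro i j
    rw [he]
    exact L2.inner_indicatorConstLp_one_indicatorConstLp_one _ _ _ _
  have hli : LinearIndependent ℝ e := by
    refine linearIndependent_of_ne_zero_of_inner_eq_zero (𝕜 := ℝ) ?_ ?_
    · intro i h0
      have := hin i i
      rw [h0, inner_zero_left, inter_self] at this
      have h2 : (mu d).real (slice d hd i) ≠ 0 := by
        rw [measureReal_ne_zero_iff]
        exact slice_pos d hd i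
      exact h2 this.symm
    · intro i j hij
      rw [hin]
      rcases lt_or_gt_of_ne hij with h | h
      · rw [slice_disj d hd i j h]; simp
      · rw [inter_comm, slice_disj d hd j i h]; simp
  exact Module.Finite.not_linearIndependent_of_infinite e hli

lemma KK_not_fin (d : ℕ) (hd : 0 < d) (F : Submodule ℝ (U d)) (hF : FiniteDimensional ℝ F) :
    ¬ KK d ⊆ (F : Set (U d)) := by
  intro hsub
  have h1 : ∀ k, g d k ∈ F := by
    intro k
    rw [g_eq]
    apply F.smul_mem
    have := hsub (KK_mem d k 0 ⟨le_refl _, zero_le_one⟩)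
    simpa using this
  have hclosed : IsClosed (F : Set (U d)) := Submodule.closed_of_finiteDimensional F
  have h2 : ∀ u : U d, u ∈ F := by
    intro u
    have h3 : closure (range (g d)) ⊆ (F : Set (U d)) :=
      closure_minimal (by rintro _ ⟨k, rfl⟩; exact h1 k) hclosed
    have h4 : u ∈ closure (range (g d)) := g_dense d u
    exact h3 h4
  have h5 : F = ⊤ := by
    rw [eq_top_iff]
    intro u _
    exact h2 u
  subst h5
  exact not_finite d hd (Module.Finite.equiv Submodule.topEquiv)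

/-- Existence of an admissible pair with logarithmic concentration. -/
theorem exists_pair (d : ℕ) (hd : 0 < d) :
    Admissible (KK d) (rho d) ∧ LogConc (rho d) :=
  ⟨⟨KK_compact d, KK_convex d, fun F hF => KK_not_fin d hd F hF, rho_prob d, rho_supp d,
    fun v hv => rho_cov d v hv⟩, rho_conc d⟩

end Q125.FNO
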