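import Pool.Agent.Q125.FNO.Lower

set_option autoImplicit false

namespace Q125.FNO

open MeasureTheory Set
open scoped ENNReal NNReal

/-- The law of the mean `u ↦ ∫ u` has logarithmic concentration: intervals of length `e^{-k}` have
mass at most `A / k`. -/
def LogConc {d : ℕ} (ρ : Measure (U d)) : Prop :=
  ∃ A : ℝ, ∀ (t : ℝ) (k : ℕ), 1 ≤ k →
    ρ {u | |(∫ x, u x ∂(mu d)) - t| ≤ Real.exp (-k)} ≤ ENNReal.ofReal (A / k)

lemma width_pow {d : ℕ} (K : Set (U d)) (hK : IsCompact K) (ρ : Measure (U d))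
    [IsProbabilityMeasure ρ] (hρ : ρ Kᶜ = 0) (hl : LogConc ρ) (α : ℝ) (hα : 0 < α) :
    ∃ C : ℝ, 0 < C ∧ ∀ n : ℕ, 1 ≤ n →
      ENNReal.ofReal ((C * n) ^ (-α) / 2) ≤ width ρ (Kal α K) n := by
  obtain ⟨A, hA⟩ := hl
  obtain ⟨B, hB⟩ := hK.isBounded.exists_norm_le
  set A' : ℕ := ⌈A⌉₊ + 1 with hA'
  set B' : ℕ := ⌈B⌉₊ with hB'
  have hBB : ∀ u ∈ K, ‖u‖ ≤ (B':ℝ) := fun u hu => (hB u hu).trans (Nat.le_ceil B)
  refine ⟨((2 * A' + B' + 7 : ℕ) : ℝ), by positivity, ?_⟩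
  intro n hn
  have hnr : (1:ℝ) ≤ n := by exact_mod_cast hn
  have hM := width_lower K hK.measurableSet ρ hρ α B' (Real.exp ((2 * A' * n : ℕ) : ℝ)) n
    ((2 * A' + B' + 7) * n) hα hBB (by positivity) (Real.exp_pos _)
    (Nat.mul_pos (by omega) hn) ?_ ?_ ?_
  · convert hM using 4
    push_cast
    ring
  · have e1 : ((B':ℝ) + 3) ≤ Real.exp (B' + 3) := by
      have := Real.add_one_le_exp ((B':ℝ) + 3)
      linarith
    have e2 : (1:ℝ) ≤ Real.exp ((2 * A' * n : ℕ) : ℝ) := Real.one_le_exp (by positivity)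
    calc Real.exp ((2 * A' * n : ℕ) : ℝ) * ((B':ℝ) + 1) + 2
        ≤ Real.exp ((2 * A' * n : ℕ) : ℝ) * ((B':ℝ) + 3) := by nlinarith
      _ ≤ Real.exp ((2 * A' * n : ℕ) : ℝ) * Real.exp (B' + 3) :=
          mul_le_mul_of_nonneg_left e1 (Real.exp_pos _).le
      _ = Real.exp (((2 * A' * n : ℕ) : ℝ) + (B' + 3)) := (Real.exp_add _ _).symm
      _ ≤ Real.exp (((2 * A' + B' + 7) * n : ℕ) : ℝ) := by
          apply Real.exp_le_exp.2
          push_cast
          have : (0:ℝ) ≤ B' := by positivity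
          nlinarith
  · nlinarith
  · intro t
    have h1 := hA t (2 * A' * n) (by
      have : 1 ≤ A' := by omega
      nlinarith)
    have h2 : {u : U d | |ell u - t| ≤ (Real.exp ((2 * A' * n : ℕ) : ℝ))⁻¹} =
        {u : U d | |(∫ x, u x ∂(mu d)) - t| ≤ Real.exp (-((2 * A' * n : ℕ) : ℝ))} := by
      rw [Real.exp_neg]
      rfl
    rw [h2]
    have h3 : A ≤ A' := by
      rw [hA']
      push_cast
      have := Nat.le_ceil A
      linarith
    have hA'0 : (0:ℝ) < A' := by rw [hA']; positivity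
    calc (n:ℝ≥0∞) * _ ≤ ENNReal.ofReal n * ENNReal.ofReal (A / (2 * A' * n : ℕ)) := by
          rw [ENNReal.ofReal_natCast]
          exact mul_le_mul' le_rfl h1
      _ = ENNReal.ofReal (n * (A / (2 * A' * n : ℕ))) := by
          rw [ENNReal.ofReal_mul (by positivity)]
      _ ≤ ENNReal.ofReal (1/2) := by
          apply ENNReal.ofReal_le_ofReal
          push_cast
          have : (n:ℝ) * (A / (2 * A' * n)) = A / (2 * A') := by
            field_simp
          rw [this, div_le_div_iff₀ (by positivity) (by norm_num)]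
          linarith
      _ = 1 / 2 := by
          rw [ENNReal.ofReal_div_of_pos (by norm_num)]
          simp

/-- Upper bound for the optimal exponent. -/
theorem betaStar_le {d : ℕ} (K : Set (U d)) (hK : IsCompact K) (ρ : Measure (U d))
    [IsProbabilityMeasure ρ] (hρ : ρ Kᶜ = 0) (hl : LogConc ρ) (α : ℝ) (hα : 0 < α) :
    betaStar ρ (Kal α K) ≤ ENNReal.ofReal α := by
  obtain ⟨C, hC, hw⟩ := width_pow K hK ρ hρ hl α hα
  unfold betaStar
  refine iSup₂_le ?_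
  rintro β ⟨D, hD⟩
  by_contra hlt
  rw [not_le] at hlt
  have hβ : α < (β:ℝ) := by
    have h1 : ENNReal.ofReal α < ENNReal.ofReal (β:ℝ) := by
      rw [ENNReal.ofReal_coe_nnreal]; exact hlt
    exact (ENNReal.ofReal_lt_ofReal_iff_of_nonneg hα.le).1 h1
  -- n ^ (β - α) is bounded
  have hbound : ∀ n : ℕ, 1 ≤ n → (n:ℝ) ^ ((β:ℝ) - α) ≤ 2 * C ^ α * D := by
    intro n hn
    have hn0 : (0:ℝ) < n := by exact_mod_cast hn
    have h1 : ENNReal.ofReal ((n:ℝ) ^ (β:ℝ) * ((C * n) ^ (-α) / 2)) ≤ D := by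
      rw [ENNReal.ofReal_mul (by positivity), ← ENNReal.ofReal_rpow_of_pos hn0,
        ENNReal.ofReal_natCast]
      exact (mul_le_mul' le_rfl (hw n hn)).trans (hD n hn)
    have h2 : (n:ℝ) ^ (β:ℝ) * ((C * n) ^ (-α) / 2) ≤ D := by
      have h3 := ENNReal.toReal_mono (by simp) h1
      rwa [ENNReal.toReal_ofReal (by positivity), ENNReal.coe_toReal] at h3
    have h4 : (n:ℝ) ^ ((β:ℝ) - α) = 2 * C ^ α * ((n:ℝ) ^ (β:ℝ) * ((C * n) ^ (-α) / 2)) := by
      rw [Real.mul_rpow hC.le hn0.le, Real.rpow_sub hn0, Real.rpow_neg hC.le, Real.rpow_neg hn0.le]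
      have : C ^ α ≠ 0 := (Real.rpow_pos_of_pos hC α).ne'
      have : (n:ℝ) ^ α ≠ 0 := (Real.rpow_pos_of_pos hn0 α).ne'
      field_simp
    rw [h4]
    exact mul_le_mul_of_nonneg_left h2 (by positivity)
  have htend : Filter.Tendsto (fun n : ℕ => (n:ℝ) ^ ((β:ℝ) - α)) Filter.atTop Filter.atTop :=
    (tendsto_rpow_atTop (by linarith)).comp tendsto_natCast_atTop_atTop
  obtain ⟨n, hn1, hn2⟩ := ((htend.eventually_gt_atTop (2 * C ^ α * D)).and
    (Filter.eventually_ge_atTop 1)).exists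
  exact absurd (hbound n hn2) (not_le.2 hn1)

end Q125.FNO
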