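import Pool.Agent.Q125.FNO.Netw

set_option autoImplicit false

namespace Q125.FNO

open MeasureTheory Set
open scoped ENNReal NNReal

instance muProb (d : ℕ) : IsProbabilityMeasure (mu d) := by
  refine ⟨?_⟩
  unfold mu
  rw [Measure.restrict_apply_univ, Real.volume_pi_Ioo]
  simp

/-- The constant function `1` in `L^2`. -/
noncomputable def one (d : ℕ) : U d := Lp.const 2 (mu d) (1:ℝ)

lemma one_ae (d : ℕ) : (one d : (Fin d → ℝ) → ℝ) =ᵐ[mu d] fun _ => 1 :=
  Lp.coeFn_const ..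

lemma norm_one (d : ℕ) : ‖one d‖ = 1 := by
  unfold one
  rw [Lp.norm_const' _ _ _ (by norm_num) (by norm_num)]
  simp

/-- The mean of `u`. -/
noncomputable def ell {d : ℕ} (u : U d) : ℝ := ∫ x, u x ∂(mu d)

lemma ell_eq {d : ℕ} (u : U d) : ell u = inner ℝ (one d) u := by
  rw [L2.inner_def]
  unfold ell
  refine integral_congr_ae ?_
  filter_upwards [one_ae d] with x hx
  rw [hx]
  simp

lemma ell_cont {d : ℕ} : Continuous (ell (d := d)) := by
  have : ell (d := d) = fun u => inner ℝ (one d) u := funext ell_eq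
  rw [this]
  fun_prop

lemma ell_abs {d : ℕ} (u : U d) : |ell u| ≤ ‖u‖ := by
  rw [ell_eq]
  have := abs_real_inner_le_norm (one d) u
  rwa [norm_one, one_mul] at this

/-- The fooling functions. -/
noncomputable def fool {d : ℕ} (K : Set (U d)) (T : ℕ → ℝ) (E η : ℝ) (n : ℕ) : C(K, U d) where
  toFun := fun u => (η * A T E (ell (u : U d)) n) • one d
  continuous_toFun := by
    have h1 := ell_cont (d := d)
    have h2 := A_cont T E n
    have : Continuous (fun u : K => η * A T E (ell (u : U d)) n) :=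
      continuous_const.mul (h2.comp (h1.comp continuous_subtype_val))
    exact this.smul continuous_const

lemma fool_apply {d : ℕ} (K : Set (U d)) (T : ℕ → ℝ) (E η : ℝ) (n : ℕ) (u : K) :
    fool K T E η n u = (η * A T E (ell (u : U d)) n) • one d := rfl

lemma fool_neg {d : ℕ} (K : Set (U d)) (T : ℕ → ℝ) (E η : ℝ) (n : ℕ) :
    fool K T E (-η) n = - fool K T E η n := by
  ext1 u
  simp only [fool_apply, ContinuousMap.neg_apply, neg_mul, neg_smul]

lemma fool_enorm_le {d : ℕ} (K : Set (U d)) (T : ℕ → ℝ) (E η : ℝ) (n : ℕ) (u : K) :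
    ‖fool K T E η n u‖ₑ ≤ ENNReal.ofReal |η| := by
  rw [← ofReal_norm]
  apply ENNReal.ofReal_le_ofReal
  rw [fool_apply, norm_smul, norm_one, mul_one, Real.norm_eq_abs, abs_mul,
    abs_of_nonneg (A_nonneg _ _ _ _)]
  exact mul_le_of_le_one_right (abs_nonneg _) (A_le_one _ _ _ _)

lemma zero_mem (d m : ℕ) (hm : 1 ≤ m) : (fun _ _ => 0) ∈ Net d m := by
  refine ⟨1, 1, 1, ⟨fun _ => 0, fun _ _ => 0, fun _ => 0, fun _ _ _ => 0, fun _ _ => 0,
    fun _ _ _ _ => 0, fun _ => 0, 0⟩, le_refl _, le_refl _, le_refl _, by simpa using hm, hm, hm,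
    ?_, ?_, ?_⟩
  · intro l hl k hk i j
    simp
  · have := Real.exp_nonneg (m:ℝ)
    refine ⟨?_, by simpa using this, ?_⟩
    · intro i
      simp only [abs_zero]
      exact ⟨this, fun _ => this, this, this⟩
    · intro l hl i
      simp only [abs_zero, Complex.zero_re, Complex.zero_im]
      exact ⟨this, fun _ => ⟨this, fun _ _ => ⟨this, this⟩⟩⟩
  · funext u x
    simp [Params.eval]

lemma err_le {d : ℕ} (K : Set (U d)) (T : ℕ → ℝ) (E η : ℝ) (n m : ℕ) (hm : 1 ≤ m) :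
    err (fool K T E η n) m ≤ ENNReal.ofReal |η| := by
  unfold err
  refine iInf₂_le_of_le _ (zero_mem d m hm) ?_
  refine iSup_le ?_
  intro u
  simp only [sub_zero]
  have := fool_enorm_le K T E η n u
  rwa [Lp.enorm_def] at this

lemma err_zero {d : ℕ} (K : Set (U d)) (T : ℕ → ℝ) (E η B : ℝ) (n m : ℕ) (hE : 0 ≤ E)
    (hT : ∀ i, |T i| ≤ B) (hη : |η| ≤ Real.exp m) (hM : E * (B + 1) + 2 ≤ Real.exp m)
    (hm : n + 6 ≤ m) : err (fool K T E η n) m = 0 := by
  refine le_antisymm ?_ zero_le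
  unfold err
  refine iInf₂_le_of_le _ (net_mem d T E η B n m hE hT hη hM hm) ?_
  refine iSup_le ?_
  intro u
  have : (fun x => fool K T E η n u x - (net d T E η).eval 1 (n + 2) (u : U d) x) =ᵐ[mu d]
      fun _ => (0 : ℝ) := by
    have h1 : (fool K T E η n u : (Fin d → ℝ) → ℝ) =ᵐ[mu d]
        fun x => (η * A T E (ell (u : U d)) n) • (one d x) := by
      rw [fool_apply]
      exact Lp.coeFn_smul _ _
    filter_upwards [h1, one_ae d] with x hx hx1
    rw [hx, hx1, net_eval]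
    simp only [ell, smul_eq_mul, mul_one]
    ring
  rw [eLpNorm_congr_ae this]
  simp

lemma gam_le {d : ℕ} (K : Set (U d)) (T : ℕ → ℝ) (E η B α : ℝ) (n M : ℕ) (hE : 0 ≤ E)
    (hα : 0 < α) (hM1 : 1 ≤ M)
    (hT : ∀ i, |T i| ≤ B) (hη : |η| ≤ (M : ℝ) ^ (-α)) (hM : E * (B + 1) + 2 ≤ Real.exp M)
    (hm : n + 6 ≤ M) : Gam α (fool K T E η n) ≤ 1 := by
  have hMr : (1:ℝ) ≤ M := by exact_mod_cast hM1
  have hpow : (M:ℝ) ^ (-α) ≤ 1 := Real.rpow_le_one_of_one_le_of_nonpos hMr (by linarith)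
  have hη1 : |η| ≤ 1 := hη.trans hpow
  unfold Gam
  refine max_le ?_ ?_
  · refine iSup_le ?_
    intro u
    refine (fool_enorm_le K T E η n u).trans ?_
    rw [← ENNReal.ofReal_one]
    exact ENNReal.ofReal_le_ofReal hη1
  · refine iSup₂_le ?_
    intro m hm1
    rcases le_or_gt M m with h | h
    · have hmM : (M:ℝ) ≤ m := by exact_mod_cast h
      have he : Real.exp M ≤ Real.exp m := Real.exp_le_exp.2 hmM
      rw [err_zero K T E η B n m hE hT (hη1.trans (Real.one_le_exp (by positivity)))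
        (hM.trans he) (by omega)]
      simp
    · have h1 := err_le K T E η n m hm1
      have h2 : ENNReal.ofReal |η| ≤ (M:ℝ≥0∞) ^ (-α) := by
        have : ENNReal.ofReal ((M : ℝ) ^ (-α)) = (M:ℝ≥0∞) ^ (-α) := by
          rw [← ENNReal.ofReal_rpow_of_pos (by linarith), ENNReal.ofReal_natCast]
        rw [← this]
        exact ENNReal.ofReal_le_ofReal hη
      have h3 : (m:ℝ≥0∞) ^ α ≤ (M:ℝ≥0∞) ^ α :=
        ENNReal.rpow_le_rpow (by exact_mod_cast h.le) hα.le
      calc (m:ℝ≥0∞) ^ α * err (fool K T E η n) m ≤ (M:ℝ≥0∞) ^ α * (M:ℝ≥0∞) ^ (-α) :=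
            mul_le_mul' h3 (h1.trans h2)
        _ = 1 := by
            rw [← ENNReal.rpow_add _ _ (by exact_mod_cast (by omega : M ≠ 0)) (by simp)]
            simp

lemma mem_Kal {d : ℕ} (K : Set (U d)) (α : ℝ) (f : C(K, U d)) (h : Gam α f ≤ 1) :
    f ∈ Kal α K := by
  unfold Kal
  simp only [mem_ofPred_eq]
  have h0 : scale (1:ℝ) (f : K → U d) = f := by
    funext u
    simp [scale]
  have h1 : Gam α (scale (1:ℝ) (f : K → U d)) ≤ 1 := by rw [h0]; exact h
  refine iInf_le_of_le 1 (iInf_le_of_le one_pos (iInf_le_of_le h1 ?_))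
  simp

lemma ext_fool {d : ℕ} (K : Set (U d)) (T : ℕ → ℝ) (E η : ℝ) (n : ℕ) :
    ext (fool K T E η n) = K.indicator (fun u => (η * A T E (ell u) n) • one d) := by
  classical
  funext u
  unfold ext
  by_cases h : u ∈ K
  · simp [h, fool_apply]
  · simp [h]

lemma ext_sm {d : ℕ} (K : Set (U d)) (hK : MeasurableSet K) (T : ℕ → ℝ) (E η : ℝ) (n : ℕ) :
    StronglyMeasurable (ext (fool K T E η n)) := by
  rw [ext_fool]
  refine StronglyMeasurable.indicator ?_ hK
  have h1 := ell_cont (d := d)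
  have h2 := A_cont T E n
  have : Measurable (fun u : U d => η * A T E (ell u) n) :=
    (continuous_const.mul (h2.comp h1)).measurable
  exact this.stronglyMeasurable.smul_const _

lemma norm_lower {d : ℕ} (K : Set (U d)) (hK : MeasurableSet K) (ρ : Measure (U d))
    [IsProbabilityMeasure ρ] (hρ : ρ Kᶜ = 0)
    (T : ℕ → ℝ) (E η : ℝ) (n : ℕ) (hE : 0 < E)
    (hc : ∑ i ∈ Finset.range n, ρ {u | |ell u - T i| ≤ E⁻¹} ≤ 1 / 2) :
    ENNReal.ofReal (|η| / 2) ≤ eLpNorm (ext (fool K T E η n)) 2 ρ := by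
  set S : Set (U d) := K \ ⋃ i ∈ Finset.range n, {u | |ell u - T i| ≤ E⁻¹} with hS
  have hmeas : ∀ i, MeasurableSet {u : U d | |ell u - T i| ≤ E⁻¹} := by
    intro i
    refine measurableSet_le ?_ measurable_const
    have h1 := ell_cont (d := d)
    exact (continuous_abs.comp (h1.sub continuous_const)).measurable
  have hUm : MeasurableSet (⋃ i ∈ Finset.range n, {u : U d | |ell u - T i| ≤ E⁻¹}) :=
    Finset.measurableSet_biUnion _ (fun i _ => hmeas i)
  have hSm : MeasurableSet S := hK.diff hUm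
  have hSc : ρ Sᶜ ≤ 1 / 2 := by
    have : Sᶜ ⊆ Kᶜ ∪ ⋃ i ∈ Finset.range n, {u : U d | |ell u - T i| ≤ E⁻¹} := by
      intro u hu
      rw [hS, mem_compl_iff, mem_sdiff] at hu
      by_cases h : u ∈ K
      · right
        by_contra h2
        exact hu ⟨h, h2⟩
      · left; exact h
    calc ρ Sᶜ ≤ ρ (Kᶜ ∪ ⋃ i ∈ Finset.range n, {u : U d | |ell u - T i| ≤ E⁻¹}) := measure_mono this
      _ ≤ ρ Kᶜ + ρ (⋃ i ∈ Finset.range n, {u : U d | |ell u - T i| ≤ E⁻¹}) := measure_union_le _ _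
      _ ≤ 0 + ∑ i ∈ Finset.range n, ρ {u | |ell u - T i| ≤ E⁻¹} :=
          add_le_add hρ.le (measure_biUnion_finset_le _ _)
      _ ≤ 1 / 2 := by rw [zero_add]; exact hc
  have hSρ : 1 / 2 ≤ ρ S := by
    have h1 : ρ S + ρ Sᶜ = 1 := by
      rw [measure_add_measure_compl hSm, measure_univ]
    have h2 : ρ S = 1 - ρ Sᶜ := ENNReal.eq_sub_of_add_eq (measure_ne_top _ _) h1
    rw [h2]
    have : (1:ℝ≥0∞) / 2 = 1 - 1 / 2 := by
      simp [ENNReal.one_sub_inv_two]
    rw [this]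
    exact tsub_le_tsub_left hSc 1
  have hle : eLpNorm (S.indicator (fun _ => |η|)) 2 ρ ≤ eLpNorm (ext (fool K T E η n)) 2 ρ := by
    refine eLpNorm_mono ?_
    intro u
    by_cases hu : u ∈ S
    · have huK : u ∈ K := hu.1
      rw [indicator_of_mem hu, ext_fool, indicator_of_mem huK, norm_smul, norm_one, mul_one]
      rw [A_one_of_far, mul_one]
      · simp
      · intro i hi
        have h2 := hu.2
        simp only [mem_iUnion, not_exists, mem_ofPred_eq, not_le] at h2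
        have h3 := h2 i (Finset.mem_range.2 hi)
        rw [abs_mul, abs_of_pos hE]
        have : E * E⁻¹ = 1 := mul_inv_cancel₀ hE.ne'
        nlinarith
    · rw [indicator_of_notMem hu]
      simp
  refine le_trans ?_ hle
  rw [eLpNorm_indicator_const hSm (by norm_num) (by norm_num)]
  have e1 : ‖|η|‖ₑ = ENNReal.ofReal |η| := by
    rw [← ofReal_norm]; simp
  rw [e1]
  have e2 : (1/2 : ℝ≥0∞) ≤ ρ S ^ (1 / (2 : ℝ≥0∞).toReal) := by
    have h4 : ((1/2 : ℝ≥0∞)) ^ (1:ℝ) ≤ (1/2 : ℝ≥0∞) ^ (1 / (2 : ℝ≥0∞).toReal) := by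
      apply ENNReal.rpow_le_rpow_of_exponent_ge
      · norm_num
      · norm_num
    rw [ENNReal.rpow_one] at h4
    exact h4.trans (ENNReal.rpow_le_rpow hSρ (by positivity))
  calc ENNReal.ofReal (|η| / 2) = ENNReal.ofReal |η| * (1/2) := by
        rw [ENNReal.ofReal_div_of_pos (by norm_num)]
        simp [ENNReal.div_eq_inv_mul, mul_comm]
    _ ≤ _ := mul_le_mul' le_rfl e2

lemma width_lower {d : ℕ} (K : Set (U d)) (hK : MeasurableSet K) (ρ : Measure (U d))
    [IsProbabilityMeasure ρ] (hρ : ρ Kᶜ = 0) (α B E : ℝ) (n M : ℕ) (hα : 0 < α)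
    (hB : ∀ u ∈ K, ‖u‖ ≤ B) (hB0 : 0 ≤ B) (hE : 0 < E) (hM1 : 1 ≤ M)
    (hM : E * (B + 1) + 2 ≤ Real.exp M) (hm : n + 6 ≤ M)
    (hc : ∀ t : ℝ, (n : ℝ≥0∞) * ρ {u | |ell u - t| ≤ E⁻¹} ≤ 1 / 2) :
    ENNReal.ofReal ((M:ℝ) ^ (-α) / 2) ≤ width ρ (Kal α K) n := by
  unfold width distX
  refine le_iInf₂ ?_
  intro p D
  set T : ℕ → ℝ := fun i => if h : i < n then ell (p ⟨i, h⟩ : U d) else 0 with hTdef
  have hT : ∀ i, |T i| ≤ B := by
    intro i
    simp only [hTdef]
    split_ifs with h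
    · exact (ell_abs _).trans (hB _ (p ⟨i, h⟩).2)
    · simpa using hB0
  set η : ℝ := (M:ℝ) ^ (-α) with hη
  have hη0 : 0 ≤ η := by positivity
  have hηa : |η| = η := abs_of_nonneg hη0
  have m1 : fool K T E η n ∈ Kal α K :=
    mem_Kal K α _ (gam_le K T E η B α n M hE.le hα hM1 hT (by rw [hηa]) hM hm)
  have m2 : fool K T E (-η) n ∈ Kal α K :=
    mem_Kal K α _ (gam_le K T E (-η) B α n M hE.le hα hM1 hT (by rw [abs_neg, hηa]) hM hm)
  have z : ∀ η' : ℝ, (fun i => fool K T E η' n (p i)) = fun _ => 0 := by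
    intro η'
    funext i
    rw [fool_apply, A_zero_of_mem T E _ n i i.2 (by simp [hTdef])]
    simp
  have l1 : eLpNorm (fun u => ext (fool K T E η n) u - D (fun _ => 0) u) 2 ρ ≤
      ⨆ f ∈ Kal α K, eLpNorm (fun u => ext f u - D (fun i => f (p i)) u) 2 ρ := by
    refine le_iSup₂_of_le (fool K T E η n) m1 ?_
    rw [z]
  have l2 : eLpNorm (fun u => ext (fool K T E (-η) n) u - D (fun _ => 0) u) 2 ρ ≤
      ⨆ f ∈ Kal α K, eLpNorm (fun u => ext f u - D (fun i => f (p i)) u) 2 ρ := by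
    refine le_iSup₂_of_le (fool K T E (-η) n) m2 ?_
    rw [z]
  set Z := ⨆ f ∈ Kal α K, eLpNorm (fun u => ext f u - D (fun i => f (p i)) u) 2 ρ with hZ
  have s1 : AEStronglyMeasurable (fun u => ext (fool K T E η n) u - D (fun _ => 0) u) ρ :=
    (ext_sm K hK T E η n).aestronglyMeasurable.sub (Lp.aestronglyMeasurable _)
  have s2 : AEStronglyMeasurable (fun u => ext (fool K T E (-η) n) u - D (fun _ => 0) u) ρ :=
    (ext_sm K hK T E (-η) n).aestronglyMeasurable.sub (Lp.aestronglyMeasurable _)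
  have l3 := eLpNorm_sub_le s1 s2 (by norm_num : (1:ℝ≥0∞) ≤ 2)
  have l4 : ((fun u => ext (fool K T E η n) u - D (fun _ => 0) u) -
      (fun u => ext (fool K T E (-η) n) u - D (fun _ => 0) u)) =
      (2:ℝ) • ext (fool K T E η n) := by
    funext u
    simp only [Pi.sub_apply, Pi.smul_apply, sub_sub_sub_cancel_right, ext_fool]
    by_cases hu : u ∈ K
    · simp only [indicator_of_mem hu, ← sub_smul, smul_smul]
      congr 1
      ring
    · simp [indicator_of_notMem hu]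
  rw [l4, eLpNorm_const_smul] at l3
  have l0 : ∑ i ∈ Finset.range n, ρ {u | |ell u - T i| ≤ E⁻¹} ≤ 1 / 2 := by
    rcases Nat.eq_zero_or_pos n with h0 | h0
    · subst h0; simp
    · -- every term is at most 1/(2n)
      have hn0 : (n:ℝ≥0∞) ≠ 0 := by exact_mod_cast h0.ne'
      have hnt : (n:ℝ≥0∞) ≠ ⊤ := by simp
      have : ∀ i ∈ Finset.range n, ρ {u | |ell u - T i| ≤ E⁻¹} ≤ (1 / 2) / n := by
        intro i _
        rw [ENNReal.le_div_iff_mul_le (Or.inl hn0) (Or.inl hnt), mul_comm]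
        exact hc _
      refine (Finset.sum_le_sum this).trans ?_
      rw [Finset.sum_const, Finset.card_range, nsmul_eq_mul]
      exact ENNReal.mul_div_le
  have l5 := norm_lower K hK ρ hρ T E η n hE l0
  rw [hηa] at l5
  have e2 : ‖(2:ℝ)‖ₑ = 2 := by
    rw [← ofReal_norm]; simp
  rw [e2] at l3
  have l6 : 2 * eLpNorm (ext (fool K T E η n)) 2 ρ ≤ 2 * Z := by
    rw [two_mul Z]
    exact l3.trans (add_le_add l1 l2)
  have l7 : eLpNorm (ext (fool K T E η n)) 2 ρ ≤ Z :=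
    (ENNReal.mul_le_mul_iff_right (by norm_num) (by norm_num)).1 l6
  exact l5.trans l7

end Q125.FNO
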