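import Pool.Agent.Q125.FNO.Defs

set_option autoImplicit false

namespace Q125.FNO

open MeasureTheory Set
open scoped ENNReal NNReal

noncomputable def tent (x : ℝ) : ℝ := max 0 (x + 1) - 2 * max 0 x + max 0 (x - 1)

lemma tent_zero : tent 0 = 1 := by simp [tent]

lemma tent_nonneg (x : ℝ) : 0 ≤ tent x := by
  unfold tent
  rcases le_total x (-1) with h | h
  · rw [max_eq_left (by linarith), max_eq_left (by linarith), max_eq_left (by linarith)]; norm_num
  rcases le_total x 0 with h0 | h0
  · rw [max_eq_right (by linarith), max_eq_left (by linarith), max_eq_left (by linarith)]; linarith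
  rcases le_total x 1 with h1 | h1
  · rw [max_eq_right (by linarith), max_eq_right (by linarith), max_eq_left (by linarith)]; linarith
  · rw [max_eq_right (by linarith), max_eq_right (by linarith), max_eq_right (by linarith)]; linarith

lemma tent_far {x : ℝ} (hx : 1 ≤ |x|) : tent x = 0 := by
  unfold tent
  rcases le_abs.1 hx with h | h
  · rw [max_eq_right (by linarith), max_eq_right (by linarith), max_eq_right (by linarith)]; ring
  · rw [max_eq_left (by linarith), max_eq_left (by linarith), max_eq_left (by linarith)]; norm_num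

lemma tent_cont : Continuous tent := by unfold tent; fun_prop

/-- Iterated clipped subtraction of tents. -/
noncomputable def A (T : ℕ → ℝ) (E s : ℝ) : ℕ → ℝ
  | 0 => 1
  | l + 1 => max 0 (A T E s l - tent (E * (s - T l)))

lemma A_nonneg (T : ℕ → ℝ) (E s : ℝ) (l : ℕ) : 0 ≤ A T E s l := by
  cases l with
  | zero => simp [A]
  | succ l => exact le_max_left _ _

lemma A_le_one (T : ℕ → ℝ) (E s : ℝ) (l : ℕ) : A T E s l ≤ 1 := by
  induction l with
  | zero => simp [A]
  | succ l ih =>
    simp only [A]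
    refine max_le zero_le_one ?_
    have := tent_nonneg (E * (s - T l))
    linarith

lemma A_zero_of_mem (T : ℕ → ℝ) (E s : ℝ) (l i : ℕ) (hi : i < l) (hs : s = T i) :
    A T E s l = 0 := by
  induction l with
  | zero => omega
  | succ l ih =>
    simp only [A]
    rcases Nat.lt_succ_iff_lt_or_eq.1 hi with h | h
    · rw [ih h]
      have := tent_nonneg (E * (s - T l))
      exact max_eq_left (by linarith)
    · subst h
      rw [← hs, sub_self, mul_zero, tent_zero]
      have := A_le_one T E s i
      exact max_eq_left (by linarith)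

lemma A_one_of_far (T : ℕ → ℝ) (E s : ℝ) (l : ℕ) (h : ∀ i < l, 1 ≤ |E * (s - T i)|) :
    A T E s l = 1 := by
  induction l with
  | zero => simp [A]
  | succ l ih =>
    simp only [A]
    rw [ih (fun i hi => h i (by omega)), tent_far (h l (by omega))]
    norm_num

lemma A_cont (T : ℕ → ℝ) (E : ℝ) (l : ℕ) : Continuous (fun s => A T E s l) := by
  induction l with
  | zero => simp only [A]; fun_prop
  | succ l ih =>
    simp only [A]
    have := tent_cont
    fun_prop

/-- The network realising `η * A T E (∫ u) n`. -/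
noncomputable def net (d : ℕ) (T : ℕ → ℝ) (E η : ℝ) : Params d (Fin 6) where
  Ru := fun i => if i = 0 then 1 else 0
  Rx := fun _ _ => 0
  Rb := fun _ => 0
  W := fun l i j => match l with
    | 0 => 0
    | _ + 1 => (![![1, 0, 0, 0, 0, 0], ![0, 1, 0, 0, 0, 0], ![E, -E, 0, 0, 0, 0],
        ![E, -E, 0, 0, 0, 0], ![E, -E, 0, 0, 0, 0], ![0, 0, -1, 2, -1, 1]] : Fin 6 → Fin 6 → ℝ) i j
  b := fun l i => match l with
    | 0 => (![0, 0, 0, 0, 0, 1] : Fin 6 → ℝ) i
    | l + 1 => (![0, 0, -(E * T l) + 1, -(E * T l), -(E * T l) - 1, 0] : Fin 6 → ℝ) i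
  P := fun l k i j => if l = 0 ∧ k = 0 ∧ j = 0 then (![1, -1, 0, 0, 0, 0] : Fin 6 → ℂ) i else 0
  Q := fun i => if i = 5 then η else 0
  Qb := 0

lemma freqs_one (d : ℕ) : freqs d 1 = {0} := by
  ext k
  simp only [freqs, Fintype.mem_piFinset, Finset.mem_Ioo, Finset.mem_singleton]
  constructor
  · intro h
    funext j
    have := h j
    simp only [Pi.zero_apply]
    push_cast at this
    omega
  · rintro rfl j
    simp

lemma char_zero {d : ℕ} (x : Fin d → ℝ) : char (0 : Fin d → ℤ) x = 1 := by
  simp [char]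

lemma coeff_zero {d : ℕ} (v : (Fin d → ℝ) → ℝ) : coeff v 0 = ((∫ x, v x ∂(mu d) : ℝ) : ℂ) := by
  unfold coeff
  rw [neg_zero]
  simp only [char_zero, mul_one]
  exact integral_ofReal

lemma mult_one {d : ℕ} {ι : Type} [Fintype ι] (P : (Fin d → ℤ) → ι → ι → ℂ)
    (v : (Fin d → ℝ) → ι → ℝ) (x : Fin d → ℝ) (i : ι) :
    mult 1 P v x i = ∑ j, P 0 i j * ((∫ y, v y j ∂(mu d) : ℝ) : ℂ) := by
  unfold mult
  rw [freqs_one, Finset.sum_singleton, char_zero, mul_one]
  simp only [coeff_zero]

lemma net_state_one (d : ℕ) (T : ℕ → ℝ) (E η : ℝ) (u : (Fin d → ℝ) → ℝ) (x : Fin d → ℝ) :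
    (net d T E η).state 1 u 1 x =
      ![max 0 (∫ y, u y ∂(mu d)), max 0 (-∫ y, u y ∂(mu d)), 0, 0, 0, 1] := by
  funext i
  simp only [Params.state, mult_one]
  fin_cases i <;> simp [net, Fin.sum_univ_six]

lemma net_state_succ (d : ℕ) (T : ℕ → ℝ) (E η : ℝ) (u : (Fin d → ℝ) → ℝ) (l : ℕ)
    (x : Fin d → ℝ) :
    (net d T E η).state 1 u (l + 2) x =
      ![max 0 (∫ y, u y ∂(mu d)), max 0 (-∫ y, u y ∂(mu d)),
        max 0 (E * ((∫ y, u y ∂(mu d)) - T l) + 1), max 0 (E * ((∫ y, u y ∂(mu d)) - T l)),
        max 0 (E * ((∫ y, u y ∂(mu d)) - T l) - 1), A T E (∫ y, u y ∂(mu d)) l] := by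
  have hs : ∀ s : ℝ, E * max 0 s - E * max 0 (-s) = E * s := by
    intro s
    rw [← mul_sub]
    congr 1
    rcases le_total 0 s with h | h
    · rw [max_eq_right h, max_eq_left (by linarith)]; ring
    · rw [max_eq_left h, max_eq_right (by linarith)]; ring
  have key : ∀ (S : (Fin d → ℝ) → Fin 6 → ℝ) (l : ℕ) (x : Fin d → ℝ) (i : Fin 6),
      mult 1 ((net d T E η).P (l+1)) S x i = 0 := by
    intro S l x i
    rw [mult_one]
    simp [net]
  set s := ∫ y, u y ∂(mu d) with hsdef
  induction l with
  | zero =>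
    funext i
    rw [Params.state]
    simp only [key, net_state_one, ← hsdef]
    have h1 := hs s
    fin_cases i
    · simp [net, Fin.sum_univ_six]
    · simp [net, Fin.sum_univ_six]
    · simp [net, Fin.sum_univ_six]
      congr 1; linarith
    · simp [net, Fin.sum_univ_six]
      congr 1; linarith
    · simp [net, Fin.sum_univ_six]
      congr 1; linarith
    · simp [net, Fin.sum_univ_six, A]
  | succ l ih =>
    funext i
    rw [Params.state]
    simp only [key, ih]
    have h1 := hs s
    fin_cases i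
    · simp [net, Fin.sum_univ_six]
    · simp [net, Fin.sum_univ_six]
    · simp [net, Fin.sum_univ_six]
      congr 1; linarith
    · simp [net, Fin.sum_univ_six]
      congr 1; linarith
    · simp [net, Fin.sum_univ_six]
      congr 1; linarith
    · simp [net, Fin.sum_univ_six, A, tent]
      congr 1; ring

lemma net_eval (d : ℕ) (T : ℕ → ℝ) (E η : ℝ) (n : ℕ) (u : (Fin d → ℝ) → ℝ) (x : Fin d → ℝ) :
    (net d T E η).eval 1 (n + 2) u x = η * A T E (∫ y, u y ∂(mu d)) n := by
  unfold Params.eval
  rw [net_state_succ]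
  simp [net, Fin.sum_univ_six]

lemma net_symm (d : ℕ) (T : ℕ → ℝ) (E η : ℝ) (n : ℕ) : (net d T E η).Symm 1 n := by
  intro l hl k hk i j
  rw [freqs_one, Finset.mem_singleton] at hk
  subst hk
  rw [neg_zero]
  by_cases h : l = 0 ∧ j = 0
  · fin_cases i <;> simp [net, h.1, h.2]
  · simp [net, h]

lemma net_bounded (d : ℕ) (T : ℕ → ℝ) (E η B M : ℝ) (n : ℕ) (hE : 0 ≤ E)
    (hT : ∀ i, |T i| ≤ B) (hη : |η| ≤ M) (hM : E * (B + 1) + 2 ≤ M) :
    (net d T E η).Bounded 1 n M := by
  have hB : 0 ≤ B := le_trans (abs_nonneg _) (hT 0)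
  have hEB : 0 ≤ E * B := mul_nonneg hE hB
  have hM2 : 2 ≤ M := by nlinarith
  have hEM : E ≤ M := by nlinarith
  have h0 : |(0:ℝ)| ≤ M := by rw [abs_zero]; linarith
  have h1 : |(1:ℝ)| ≤ M := by rw [abs_one]; linarith
  have hTl : ∀ l, |E * T l| ≤ E * B := by
    intro l
    rw [abs_mul, abs_of_nonneg hE]
    exact mul_le_mul_of_nonneg_left (hT l) hE
  refine ⟨?_, ?_, ?_⟩
  · intro i
    refine ⟨?_, ?_, ?_, ?_⟩
    · simp only [net]; split_ifs <;> assumption
    · intro j; simpa [net] using h0
    · simpa [net] using h0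
    · simp only [net]; split_ifs <;> assumption
  · simpa [net] using h0
  · intro l hl i
    refine ⟨?_, ?_⟩
    · cases l with
      | zero => fin_cases i <;> simp [net] <;> linarith
      | succ l =>
        have h2 := abs_le.1 (hTl l)
        fin_cases i
        · simp [net]; linarith
        · simp [net]; linarith
        · show |-(E * T l) + 1| ≤ M
          rw [abs_le]; constructor <;> nlinarith
        · show |-(E * T l)| ≤ M
          rw [abs_le]; constructor <;> nlinarith
        · show |-(E * T l) - 1| ≤ M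
          rw [abs_le]; constructor <;> nlinarith
        · simp [net]; linarith
    · intro j
      refine ⟨?_, ?_⟩
      · cases l with
        | zero => simp [net]; linarith
        | succ l =>
          fin_cases i <;> fin_cases j <;> simp [net, abs_of_nonneg hE] <;> linarith
      · intro k hk
        simp only [net]
        have hM0 : 0 ≤ M := by linarith
        have hM1 : 1 ≤ M := by linarith
        split_ifs
        · fin_cases i <;> simp <;> first | assumption | (constructor <;> assumption)
        · simp; linarith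

lemma net_mem (d : ℕ) (T : ℕ → ℝ) (E η B : ℝ) (n m : ℕ) (hE : 0 ≤ E)
    (hT : ∀ i, |T i| ≤ B) (hη : |η| ≤ Real.exp m) (hM : E * (B + 1) + 2 ≤ Real.exp m)
    (hm : n + 6 ≤ m) : (net d T E η).eval 1 (n + 2) ∈ Net d m :=
  ⟨1, 6, n + 2, net d T E η, le_refl _, by norm_num, by omega, by simp; omega, by omega, by omega,
    net_symm d T E η _, net_bounded d T E η B _ _ hE hT hη hM, rfl⟩

end Q125.FNO
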